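import Pool.Agent.H51.ERA.Defs

/-!
MP_e0047e_lc: basic lemmas on runs, slices and cut positions.
-/

set_option autoImplicit false

namespace Pool.Agent.H51.ERA

/-! ### run -/

theorem run_nil (σ : List Ent) : run [] σ = some σ := rfl

theorem run_cons (x : Ltr) (w : List Ltr) (σ : List Ent) :
    run (x :: w) σ = (stp x σ).bind (run w) := rfl

theorem run_append (w w' : List Ltr) (σ : List Ent) :
    run (w ++ w') σ = (run w σ).bind (run w') := by
  induction w generalizing σ with
  | nil => simp [run]
  | cons x w ih =>
    simp only [List.cons_append, run_cons]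
    cases h : stp x σ with
    | none => simp
    | some τ => simp [ih]

theorem run_split {u u' : List Ltr} {σ σ' : List Ent} (h : run (u ++ u') σ = some σ') :
    ∃ σ₁, run u σ = some σ₁ ∧ run u' σ₁ = some σ' := by
  rw [run_append] at h
  cases h1 : run u σ with
  | none => rw [h1] at h; simp at h
  | some σ₁ => rw [h1] at h; exact ⟨σ₁, rfl, h⟩

theorem run_comp {u u' : List Ltr} {σ σ₁ σ' : List Ent} (h : run u σ = some σ₁)
    (h' : run u' σ₁ = some σ') : run (u ++ u') σ = some σ' := by
  rw [run_append, h]; exact h'

theorem stp_inj {x : Ltr} {σ₁ σ₂ σ : List Ent} (h₁ : stp x σ₁ = some σ) (h₂ : stp x σ₂ = some σ) :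
    σ₁ = σ₂ := by
  cases x with
  | vl τ => simp only [stp, Option.some.injEq] at h₁ h₂; rw [h₁, h₂]
  | op a =>
    simp only [stp, Option.some.injEq] at h₁ h₂
    rw [← h₂] at h₁
    exact (List.cons.inj h₁).2
  | cl a =>
    cases σ₁ with
    | nil => simp [stp] at h₁
    | cons b τ =>
      cases σ₂ with
      | nil => simp [stp] at h₂
      | cons b' τ' =>
        simp only [stp] at h₁ h₂
        split_ifs at h₁ with e1
        split_ifs at h₂ with e2
        simp only [Option.some.injEq] at h₁ h₂
        rw [← e1, ← e2, h₁, h₂]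
  | dd => simp only [stp, Option.some.injEq] at h₁ h₂; rw [h₁, h₂]
  | ee => simp only [stp, Option.some.injEq] at h₁ h₂; rw [h₁, h₂]

theorem run_inj {w : List Ltr} {σ₁ σ₂ σ : List Ent} (h₁ : run w σ₁ = some σ)
    (h₂ : run w σ₂ = some σ) : σ₁ = σ₂ := by
  induction w generalizing σ₁ σ₂ with
  | nil => simp only [run, Option.some.injEq] at h₁ h₂; rw [h₁, h₂]
  | cons x w ih =>
    rw [run_cons] at h₁ h₂
    cases e1 : stp x σ₁ with
    | none => rw [e1] at h₁; simp at h₁
    | some τ₁ =>
      cases e2 : stp x σ₂ with
      | none => rw [e2] at h₂; simp at h₂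
      | some τ₂ =>
        rw [e1] at h₁; rw [e2] at h₂
        have := ih h₁ h₂
        subst this
        exact stp_inj e1 e2

theorem run_ops (z : List Ent) (σ : List Ent) : run (z.map Ltr.op) σ = some (z.reverse ++ σ) := by
  induction z generalizing σ with
  | nil => simp [run]
  | cons a z ih => simp [run_cons, stp, ih]

theorem run_cls (z : List Ent) (σ : List Ent) : run (z.map Ltr.cl) (z ++ σ) = some σ := by
  induction z generalizing σ with
  | nil => simp [run]
  | cons a z ih => simp [run_cons, stp, ih]

theorem run_vl (v : List (Fin 4)) (σ : List Ent) : run (v.map Ltr.vl) σ = some σ := by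
  induction v generalizing σ with
  | nil => simp [run]
  | cons a z ih => simp [run_cons, stp, ih]

theorem stp_count {x : Ltr} {σ σ' : List Ent} (h : stp x σ = some σ') :
    (if IsOp x = true then 1 else 0) + σ.length = (if IsCl x = true then 1 else 0) + σ'.length := by
  cases x with
  | vl τ => simp only [stp, Option.some.injEq] at h; simp [h, IsOp, IsCl]
  | op a => simp only [stp, Option.some.injEq] at h; simp [← h, IsOp, IsCl]; omega
  | cl a =>
    cases σ with
    | nil => simp [stp] at h
    | cons b τ =>
      simp only [stp] at h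
      split_ifs at h with e1
      simp only [Option.some.injEq] at h
      simp [← h, IsOp, IsCl]; omega
  | dd => simp only [stp, Option.some.injEq] at h; simp [h, IsOp, IsCl]
  | ee => simp only [stp, Option.some.injEq] at h; simp [h, IsOp, IsCl]

theorem run_count {w : List Ltr} {σ σ' : List Ent} (h : run w σ = some σ') :
    w.countP IsOp + σ.length = w.countP IsCl + σ'.length := by
  induction w generalizing σ with
  | nil => simp only [run, Option.some.injEq] at h; simp [h]
  | cons x w ih =>
    rw [run_cons] at h
    cases e : stp x σ with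
    | none => rw [e] at h; simp at h
    | some τ =>
      rw [e] at h
      have h1 := ih h
      have h2 := stp_count e
      rw [List.countP_cons, List.countP_cons]
      omega

theorem countP_ops (z : List Ent) : (z.map Ltr.op).countP IsOp = z.length := by
  induction z with
  | nil => simp
  | cons a z ih => simp [List.countP_cons, ih, IsOp]

theorem countP_ops' (z : List Ent) : (z.map Ltr.op).countP IsCl = 0 := by
  induction z with
  | nil => simp
  | cons a z ih => simp [ih, IsCl]

theorem countP_cls (z : List Ent) : (z.map Ltr.cl).countP IsCl = z.length := by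
  induction z with
  | nil => simp
  | cons a z ih => simp [List.countP_cons, ih, IsCl]

theorem countP_cls' (z : List Ent) : (z.map Ltr.cl).countP IsOp = 0 := by
  induction z with
  | nil => simp
  | cons a z ih => simp [ih, IsOp]

theorem vs_append (w w' : List Ltr) : vs (w ++ w') = vs w ++ vs w' := by
  simp [vs, List.filterMap_append]

theorem vs_perm {w w' : List Ltr} (h : w.Perm w') : (vs w).Perm (vs w') := h.filterMap _

theorem vs_vl (v : List (Fin 4)) : vs (v.map Ltr.vl) = v := by
  induction v with
  | nil => rfl
  | cons a v ih =>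
    have : vs ((a :: v).map Ltr.vl) = a :: vs (v.map Ltr.vl) := rfl
    rw [this, ih]

theorem vs_ops (z : List Ent) : vs (z.map Ltr.op) = [] := by
  induction z with
  | nil => rfl
  | cons a v ih =>
    have : vs ((a :: v).map Ltr.op) = vs (v.map Ltr.op) := rfl
    rw [this, ih]

theorem vs_cls (z : List Ent) : vs (z.map Ltr.cl) = [] := by
  induction z with
  | nil => rfl
  | cons a v ih =>
    have : vs ((a :: v).map Ltr.cl) = vs (v.map Ltr.cl) := rfl
    rw [this, ih]

/-- A word all of whose letters are opening brackets. -/
theorem exists_ops {w : List Ltr} (h : ∀ x ∈ w, IsOp x = true) : ∃ z : List Ent, w = z.map Ltr.op := by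
  induction w with
  | nil => exact ⟨[], rfl⟩
  | cons x w ih =>
    obtain ⟨z, hz⟩ := ih (fun y hy => h y (List.mem_cons_of_mem _ hy))
    have hx := h x List.mem_cons_self
    cases x with
    | op a => exact ⟨a :: z, by rw [hz]; rfl⟩
    | vl τ => simp [IsOp] at hx
    | cl a => simp [IsOp] at hx
    | dd => simp [IsOp] at hx
    | ee => simp [IsOp] at hx

/-! ### slices -/

theorem sl_length (w : List Ltr) (a b : ℕ) (hb : b ≤ w.length) : (sl w a b).length = b - a := by
  simp [sl, Nat.min_eq_left hb]

theorem take_sl (w : List Ltr) {a b : ℕ} (h : a ≤ b) : w.take a ++ sl w a b = w.take b := by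
  have h1 : w.take a = (w.take b).take a := by rw [List.take_take, Nat.min_eq_left h]
  rw [h1]
  exact List.take_append_drop a (w.take b)

theorem sl_append (w : List Ltr) {a b c : ℕ} (h : a ≤ b) (h' : b ≤ c) :
    sl w a b ++ sl w b c = sl w a c := by
  have h1 := take_sl w h
  have h2 := take_sl w h'
  have h3 := take_sl w (le_trans h h')
  rw [← h1, ← h3, List.append_assoc] at h2
  exact List.append_cancel_left h2

theorem sl_self (w : List Ltr) (a : ℕ) : sl w a a = [] := by simp [sl]

theorem sl_sub (A M C : List Ltr) (x y : ℕ) (hy : y ≤ M.length) :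
    sl (A ++ (M ++ C)) (A.length + x) (A.length + y) = sl M x y := by
  unfold sl
  rw [List.take_length_add_append, List.drop_length_add_append, List.take_append_of_le_length hy]

theorem sl_whole (M : List Ltr) : sl M 0 M.length = M := by simp [sl]

theorem sl_sl (w : List Ltr) (a b x y : ℕ) (h : a + y ≤ b) : sl (sl w a b) x y = sl w (a + x) (a + y) := by
  unfold sl
  apply List.ext_getElem?
  intro n
  rw [List.getElem?_drop, List.getElem?_take, List.getElem?_drop, List.getElem?_take,
    List.getElem?_drop, List.getElem?_take]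
  have e : a + (x + n) = a + x + n := by omega
  by_cases h1 : x + n < y
  · rw [if_pos h1, if_pos (by omega), if_pos (by omega), e]
  · rw [if_neg h1, if_neg (by omega)]

theorem drop_eq_sl (w : List Ltr) (a : ℕ) : w.drop a = sl w a w.length := by simp [sl]

/-! ### cut positions -/

section
variable {N : Type}

theorem yl_append (K K' : List (Sg N)) : yl (K ++ K') = yl K ++ yl K' := by simp [yl]

theorem yl_cons (x : Sg N) (K : List (Sg N)) : yl (x :: K) = x.2 ++ yl K := by simp [yl]

theorem yl_perm {K K' : List (Sg N)} (h : K.Perm K') : (yl K).Perm (yl K') :=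
  h.flatMap_right Prod.snd

theorem yl_split (K : List (Sg N)) (m : ℕ) : yl K = yl (K.take m) ++ yl (K.drop m) := by
  rw [← yl_append, List.take_append_drop]

theorem yl_take (K : List (Sg N)) (m : ℕ) : yl (K.take m) = (yl K).take (ps K m) := by
  have h := yl_split K m
  rw [h]
  unfold ps
  rw [List.take_left]

theorem ps_zero (K : List (Sg N)) : ps K 0 = 0 := by simp [ps, yl]

theorem ps_length (K : List (Sg N)) : ps K K.length = (yl K).length := by simp [ps]

theorem ps_mono (K : List (Sg N)) {i j : ℕ} (h : i ≤ j) : ps K i ≤ ps K j := by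
  unfold ps
  have h1 : K.take i = (K.take j).take i := by rw [List.take_take, Nat.min_eq_left h]
  rw [h1, yl_split (K.take j) i, List.length_append]
  exact Nat.le_add_right _ _

theorem ps_le (K : List (Sg N)) (j : ℕ) : ps K j ≤ (yl K).length := by
  unfold ps
  rw [yl_split K j, List.length_append]
  exact Nat.le_add_right _ _

theorem yl_slice (K : List (Sg N)) {m m' : ℕ} (h : m ≤ m') :
    yl ((K.take m').drop m) = sl (yl K) (ps K m) (ps K m') := by
  have h1 : K.take m = (K.take m').take m := by rw [List.take_take, Nat.min_eq_left h]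
  have h2 := yl_split (K.take m') m
  rw [← h1, yl_take K m', yl_take K m] at h2
  have h3 := take_sl (yl K) (ps_mono K h)
  rw [h2] at h3
  exact (List.append_cancel_left h3).symm

theorem take_succ_drop {α : Type} (K : List α) (j : ℕ) (x : α) (h : K[j]? = some x) :
    (K.take (j + 1)).drop j = [x] := by
  obtain ⟨hj, hx⟩ := List.getElem?_eq_some_iff.1 h
  rw [List.take_add_one, h]
  have : (K.take j).length = j := by simp [Nat.le_of_lt hj]
  rw [List.drop_append_of_le_length (by omega)]
  simp [List.drop_of_length_le]

theorem ent_eq (K : List (Sg N)) {j : ℕ} {A : Symbol Ltr N} {y : List Ltr}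
    (h : K[j]? = some (A, y)) : y = sl (yl K) (ps K j) (ps K (j + 1)) := by
  rw [← yl_slice K (Nat.le_succ j), take_succ_drop K j _ h]
  simp [yl]

theorem ps_succ (K : List (Sg N)) {j : ℕ} {A : Symbol Ltr N} {y : List Ltr}
    (h : K[j]? = some (A, y)) : ps K (j + 1) = ps K j + y.length := by
  have h1 := ent_eq K h
  have h2 := congrArg List.length h1
  rw [sl_length _ _ _ (ps_le K (j + 1))] at h2
  have := ps_mono K (Nat.le_succ j)
  simp only [Nat.succ_eq_add_one] at this
  omega

theorem ps_lt (K : List (Sg N)) (hK : ∀ x ∈ K, x.2 ≠ []) {i j : ℕ} (h : i < j) (hj : j ≤ K.length) :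
    ps K i < ps K j := by
  have hi : i < K.length := by omega
  have h1 : K[i]? = some (K[i].1, K[i].2) := by rw [List.getElem?_eq_getElem hi]
  have h2 := ps_succ K h1
  have h3 : K[i].2 ≠ [] := hK _ (List.getElem_mem hi)
  have h4 := List.length_pos_iff.2 h3
  have h5 := ps_mono K (show i + 1 ≤ j by omega)
  omega

theorem ps_find (K : List (Sg N)) {x : ℕ} (hx : x < (yl K).length) :
    ∃ j < K.length, ps K j ≤ x ∧ x < ps K (j + 1) := by
  have hex : ∃ j, x < ps K j := ⟨K.length, by rw [ps_length]; exact hx⟩
  classical
  have h1 := Nat.find_spec hex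
  have h0 : Nat.find hex ≠ 0 := by
    intro h
    rw [h, ps_zero] at h1
    omega
  obtain ⟨j, hj⟩ := Nat.exists_eq_succ_of_ne_zero h0
  have h2 : ¬ x < ps K j := Nat.find_min hex (by omega)
  have h3 : Nat.find hex ≤ K.length := Nat.find_min' hex (by rw [ps_length]; exact hx)
  refine ⟨j, by omega, by omega, ?_⟩
  rw [hj] at h1
  exact h1

end

end Pool.Agent.H51.ERA
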