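import Pool.Agent.H51.ERA.Defs

/-!
MP_e0047e_lc: statements of the modules of board `era`.
-/

set_option autoImplicit false

namespace Pool.Agent.H51.ERA

/-! ### Words (no grammar) -/

/-- TLN: elementary facts on the words Tw (induction on h). -/
def TLNStmt : Prop := ∀ (s t : ℕ) (b : ℕ → Bool) (i h : ℕ) (p : List Bool) (m : ℕ),
  (Tw s t b i h p m).length = tl s t h ∧
  (∀ σ, run (Tw s t b i h p m) σ = some σ) ∧
  (Tw s t b i h p m).countP IsOp = (Tw s t b i h p m).countP IsCl ∧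
  vs (Tw s t b i h p m) = [] ∧
  (Tw s t b i h p m).count Ltr.dd = min m (2 ^ h)

/-- SUB: every node has its word inside W, at position lo. Induction on p. -/
def SUBStmt : Prop := ∀ (s t : ℕ) (b : ℕ → Bool) (i : ℕ) (p : List Bool), IsNode s t i p →
  ∃ (A C : List Ltr) (m : ℕ),
    WW s t b = A ++ (Tw s t b i (DD t - p.length) p m ++ C) ∧ A.length = lo s t i p

/-- OPS: slices of the left segment of a node. -/
def OPSStmt : Prop := ∀ (s t : ℕ) (b : ℕ → Bool) (i : ℕ) (p : List Bool) (x y : ℕ),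
  IsNode s t i p → x ≤ y → y ≤ gg s t →
  sl (WW s t b) (lo s t i p + x) (lo s t i p + y) =
    ((List.range' x (y - x)).map (ent s t b (i, p))).map Ltr.op

/-- HT: heights in the left segment of a node (induction on p). -/
def HTStmt : Prop := ∀ (s t : ℕ) (b : ℕ → Bool) (i : ℕ) (p : List Bool) (q : ℕ),
  IsNode s t i p → q ≤ gg s t →
  ((WW s t b).take (lo s t i p + q)).countP IsOp =
    ((WW s t b).take (lo s t i p + q)).countP IsCl + (p.length * gg s t + q)

/-- LEFT: the leftmost branch below a node down to a leaf (induction on the height). -/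
def LEFTStmt : Prop := ∀ (s t : ℕ) (b : ℕ → Bool) (i : ℕ) (p : List Bool), IsNode s t i p →
  ∃ (z : List Ent) (a : Ltr) (C : List Ltr),
    (WW s t b).drop (lo s t i p) = z.map Ltr.op ++ a :: C ∧ Leaf a ∧
    z.map Prod.fst = (List.range' (p.length * gg s t) ((DD t + 1 - p.length) * gg s t)).map (ty s t b)

/-- NEST: positions of children. -/
def NESTStmt : Prop := ∀ (s t i : ℕ) (p : List Bool) (c : Bool), IsNode s t i (c :: p) →
  lo s t i p + gg s t ≤ lo s t i (c :: p) ∧ hi s t i (c :: p) + gg s t ≤ hi s t i p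

/-- WLEN: length of W, all nodes inside. -/
def WLENStmt : Prop := ∀ (s t : ℕ) (b : ℕ → Bool),
  (WW s t b).length = nn s t + kk s * tl s t (DD t) ∧
  ∀ (i : ℕ) (p : List Bool), IsNode s t i p → nn s t ≤ lo s t i p ∧ hi s t i p ≤ (WW s t b).length

/-- DISJ: two nodes of the same level with a common inner position are equal. -/
def DISJStmt : Prop := ∀ (s t x i i' : ℕ) (p p' : List Bool), IsNode s t i p → IsNode s t i' p' →
  p.length = p'.length → lo s t i p < x → x < hi s t i p → lo s t i' p' < x → x < hi s t i' p' →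
  i = i' ∧ p = p'

/-- COV: every position is in the v-part, on a root segment or on a segment of a child of a node
whose middle region contains it strictly. -/
def COVStmt : Prop := ∀ (s t : ℕ) (b : ℕ → Bool) (x : ℕ), x ≤ (WW s t b).length →
  x ≤ nn s t ∨
  (∃ i < kk s, ∃ q ≤ gg s t, x = lo s t i [] + q ∨ x + q = hi s t i []) ∨
  ∃ (i : ℕ) (p : List Bool) (c : Bool), IsNode s t i p ∧ p.length < DD t ∧
    lo s t i p + gg s t < x ∧ x + gg s t < hi s t i p ∧
    ∃ q ≤ gg s t, x = lo s t i (c :: p) + q ∨ x + q = hi s t i (c :: p)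

/-- KEY: reading a slice which contains the last part of the left segment of a node and ends in
its middle region gives a stack whose key is the code of a node with its last part in the slice. -/
def KEYStmt : Prop := ∀ (s t : ℕ) (b : ℕ → Bool) (i : ℕ) (p : List Bool) (x x' : ℕ),
  IsNode s t i p → x ≤ lo s t i p + (lam s + t) → lo s t i p + gg s t ≤ x' →
  x' + gg s t ≤ hi s t i p →
  ∃ (i' : ℕ) (p' : List Bool), IsNode s t i' p' ∧ x ≤ lo s t i' p' + (lam s + t) ∧
    lo s t i' p' + gg s t ≤ x' ∧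
    ∀ σ σ', run (sl (WW s t b) x x') σ = some σ' → key s t σ' = code s t (i', p')

/-- UNQ: codes are injective. -/
def UNQStmt : Prop := ∀ (s t i i' : ℕ) (p p' : List Bool), IsNode s t i p → IsNode s t i' p' →
  code s t (i, p) = code s t (i', p') → i = i' ∧ p = p'

/-- PER: windows determine the period. -/
def PERStmt : Prop := ∀ (a b q q' n : ℕ), 1 ≤ a → 1 ≤ b → 2 * a ≤ n → 2 * b ≤ n → n ≤ q → n ≤ q' →
  (∀ j < n, ((q - 1 - j) % a = 0 ↔ (q' - 1 - j) % b = 0)) → a = b

/-- FBV: the counter function. -/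
def FBVStmt : Prop :=
  (∀ v : List (Fin 4), F v = F (v.filter (fun τ => decide (τ < 2)))) ∧
  (∀ (t : ℕ) (b : ℕ → Bool), 2 ^ t ≤ Fb t b ∧ Fb t b < 2 ^ (t + 1)) ∧
  (∀ (t : ℕ) (b b' : ℕ → Bool), Fb t b = Fb t b' → ∀ j < t, b j = b' j)

/-- CNW: letter counts of W. -/
def CNWStmt : Prop := ∀ (s t : ℕ) (b : ℕ → Bool),
  vs (WW s t b) = vpart s t b ∧ (WW s t b).count Ltr.dd = Fb t b ∧
  (vpart s t b).filter (fun τ => decide (τ < 2)) = bits t b ∧ F (vpart s t b) = Fb t b

/-! ### Cuts -/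

/-- SW: swapping two entries with the same symbol. -/
def SWStmt : Prop := ∀ (N Q : Type) (L : List Ltr → Prop) (rho : ℕ) (sys : CutSys N Q L rho),
  (∀ w, L w → Good w) → ∀ (q : Q) (K : List (Sg N)) (i j : ℕ) (A : Symbol Ltr N) (y y' : List Ltr),
  sys.Cut q K → i ≠ j → K[i]? = some (A, y) → K[j]? = some (A, y') →
  ∃ σ₀ σ₁ σ, run y σ₀ = some σ ∧ run y' σ₁ = some σ

/-- USE: undetermined and open implies S-segment or E-segment. -/
def USEStmt : Prop := ∀ (s t : ℕ) (N : Type) (K : List (Sg N)) (i : ℕ) (p : List Bool),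
  Und s t K i p → Open s t K i p →
  (∃ j < K.length, SAt s t K j i p) ∨ ∃ j < K.length, EAt s t K j i p

/-- LEMA: at most one S-segment per symbol. -/
def LEMAStmt : Prop := ∀ (N Q : Type) (L : List Ltr → Prop) (rho : ℕ) (sys : CutSys N Q L rho),
  (∀ w, L w → Good w) → ∀ (s t : ℕ) (b : ℕ → Bool) (q : Q) (K : List (Sg N)),
  sys.Cut q K → yl K = WW s t b → ∀ (i i' : ℕ) (p p' : List Bool) (j j' : ℕ) (A : Symbol Ltr N)
    (y y' : List Ltr), IsNode s t i p → IsNode s t i' p' → SAt s t K j i p → SAt s t K j' i' p' →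
  K[j]? = some (A, y) → K[j']? = some (A, y') → j = j'

/-- LEMB: E-segments with the same symbol have the same period. -/
def LEMBStmt : Prop := ∀ (N Q : Type) (L : List Ltr → Prop) (rho : ℕ) (sys : CutSys N Q L rho),
  (∀ w, L w → Good w) → ∀ (s t : ℕ) (b : ℕ → Bool) (q : Q) (K : List (Sg N)),
  sys.Cut q K → yl K = WW s t b → ∀ (i i' : ℕ) (p p' : List Bool) (j j' : ℕ) (A : Symbol Ltr N)
    (y y' : List Ltr), IsNode s t i p → IsNode s t i' p' → EAt s t K j i p → EAt s t K j' i' p' →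
  K[j]? = some (A, y) → K[j']? = some (A, y') → per s (i, p) = per s (i', p')

/-- SCNT: number of S-nodes. -/
def SCNTStmt : Prop := ∀ (N Q : Type) [Fintype N] (L : List Ltr → Prop) (rho : ℕ)
  (sys : CutSys N Q L rho), (∀ w, L w → Good w) →
  ∀ (s t : ℕ) (b : ℕ → Bool) (q : Q) (K : List (Sg N)), sys.Cut q K → yl K = WW s t b →
  ∀ O : Finset (ℕ × List Bool),
    (∀ ν ∈ O, IsNode s t ν.1 ν.2 ∧ ∃ j < K.length, SAt s t K j ν.1 ν.2) →
    O.card ≤ Fintype.card N * (DD t + 1)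

/-- ECNT: number of E-nodes with distinct periods. -/
def ECNTStmt : Prop := ∀ (N Q : Type) [Fintype N] (L : List Ltr → Prop) (rho : ℕ)
  (sys : CutSys N Q L rho), (∀ w, L w → Good w) →
  ∀ (s t : ℕ) (b : ℕ → Bool) (q : Q) (K : List (Sg N)), sys.Cut q K → yl K = WW s t b →
  ∀ O : Finset (ℕ × List Bool),
    (∀ ν ∈ O, IsNode s t ν.1 ν.2 ∧ ∃ j < K.length, EAt s t K j ν.1 ν.2) →
    (∀ ν ∈ O, ∀ ν' ∈ O, per s ν = per s ν' → ν = ν') → O.card ≤ Fintype.card N

/-- ROOT: not all roots are undetermined and open. -/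
def ROOTStmt : Prop := ∀ (N Q : Type) [Fintype N] (L : List Ltr → Prop) (rho : ℕ)
  (sys : CutSys N Q L rho), (∀ w, L w → Good w) →
  ∀ (s t : ℕ) (b : ℕ → Bool) (q : Q) (K : List (Sg N)), s = Fintype.card N →
  sys.Cut q K → yl K = WW s t b → (∀ i < kk s, Und s t K i []) → ∃ i < kk s, ¬ Open s t K i []

/-- OPN: number of open nodes if no node is determined. -/
def OPNStmt : Prop := ∀ (N Q : Type) [Fintype N] (L : List Ltr → Prop) (rho : ℕ)
  (sys : CutSys N Q L rho), (∀ w, L w → Good w) →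
  ∀ (s t : ℕ) (b : ℕ → Bool) (q : Q) (K : List (Sg N)), s = Fintype.card N →
  sys.Cut q K → yl K = WW s t b →
  (∀ (i : ℕ) (p : List Bool), IsNode s t i p → p.length < DD t → Und s t K i p) →
  ∀ O : Finset (ℕ × List Bool),
    (∀ ν ∈ O, IsNode s t ν.1 ν.2 ∧ ν.2.length < DD t ∧ Open s t K ν.1 ν.2) → O.card ≤ Ob s t

/-- LEN: length of a cut without determined node. -/
def LENStmt : Prop := ∀ (N Q : Type) [Fintype N] (L : List Ltr → Prop) (rho : ℕ)
  (sys : CutSys N Q L rho), (∀ w, L w → Good w) →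
  ∀ (s t : ℕ) (b : ℕ → Bool) (q : Q) (K : List (Sg N)), s = Fintype.card N →
  sys.Cut q K → yl K = WW s t b →
  (∀ (i : ℕ) (p : List Bool), IsNode s t i p → p.length < DD t → Und s t K i p) →
  K.length ≤ Mb s t

/-- MK1: marks at a determined node. -/
def MK1Stmt : Prop := ∀ (s t : ℕ) (b : ℕ → Bool) (N : Type) (K : List (Sg N)) (i : ℕ)
  (p : List Bool), 1 ≤ t → (∀ x ∈ K, x.2 ≠ []) → yl K = WW s t b → IsNode s t i p →
  ¬ Und s t K i p → ∃ off m1 m2 m3, Mk1 s t b K p.length off m1 m2 m3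

/-- MK2: mark at a root which is not open. -/
def MK2Stmt : Prop := ∀ (s t : ℕ) (b : ℕ → Bool) (N : Type) (K : List (Sg N)) (i : ℕ),
  (∀ x ∈ K, x.2 ≠ []) → yl K = WW s t b → i < kk s → ¬ Open s t K i [] → ∃ mC, Mk2 s t b K mC

/-- ARR: rearrangement respecting kinds and marks. -/
def ARRStmt : Prop := ∀ (α κ : Type) (kd : α → κ) (ms : List ℕ) (K K' : List α),
  K.length = K'.length → (∀ m ∈ ms, ((K.take m).map kd).Perm ((K'.take m).map kd)) →
  (K.map kd).Perm (K'.map kd) →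
  ∃ B : List α, B.Perm K' ∧ B.map kd = K.map kd ∧ ∀ m ∈ ms, (B.take m).Perm (K'.take m)

/-- HC1: the types at the bit positions of level e in the hybrid. -/
def HC1Stmt : Prop := ∀ (s t : ℕ) (b b' : ℕ → Bool) (N : Type) (K K' B : List (Sg N))
  (e off m1 m2 m3 : ℕ), yl K = WW s t b → yl K' = WW s t b' →
  Mk1 s t b K e off m1 m2 m3 → Mk1 s t b' K' e off m1 m2 m3 →
  B.Perm K' → B.map (kd s) = K.map (kd s) →
  (∀ m ∈ [m1, m2, m3, m3 + 1], (B.take m).Perm (K'.take m)) → Good (yl B) →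
  ∀ x < t, (vs (yl B))[e * gg s t + lam s + x]? = some (ty s t b (e * gg s t + lam s + x))

/-- HC2: the types at depth at least gg in the hybrid. -/
def HC2Stmt : Prop := ∀ (s t : ℕ) (b' : ℕ → Bool) (N : Type) (K' B : List (Sg N)) (mC : ℕ),
  yl K' = WW s t b' → Mk2 s t b' K' mC → B.Perm K' →
  (∀ m ∈ [mC, mC + 1], (B.take m).Perm (K'.take m)) → Good (yl B) →
  ∀ j, gg s t ≤ j → j < nn s t → (vs (yl B))[j]? = some (ty s t b' j)

/-- HFA: root case. -/
def HFAStmt : Prop := ∀ (N Q : Type) (L : List Ltr → Prop) (rho : ℕ) (sys : CutSys N Q L rho),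
  (∀ w, L w → Good w) → ∀ (s t : ℕ) (b b' : ℕ → Bool) (q : Q) (K K' : List (Sg N))
    (off m1 m2 m3 : ℕ), sys.Cut q K → sys.Cut q K' → yl K = WW s t b → yl K' = WW s t b' →
  K.length = K'.length → Mk1 s t b K 0 off m1 m2 m3 → Mk1 s t b' K' 0 off m1 m2 m3 →
  (∀ m ∈ [m1, m2, m3, m3 + 1, K.length], ((K.take m).map (kd s)).Perm ((K'.take m).map (kd s))) →
  Fb t b' ≤ Fb t b

/-- HFB: the other case. -/
def HFBStmt : Prop := ∀ (N Q : Type) (L : List Ltr → Prop) (rho : ℕ) (sys : CutSys N Q L rho),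
  (∀ w, L w → Good w) → ∀ (s t : ℕ) (b b' : ℕ → Bool) (q : Q) (K K' : List (Sg N))
    (e off m1 m2 m3 mC : ℕ), sys.Cut q K → sys.Cut q K' → yl K = WW s t b → yl K' = WW s t b' →
  K.length = K'.length → 1 ≤ e → Mk1 s t b K e off m1 m2 m3 → Mk1 s t b' K' e off m1 m2 m3 →
  Mk2 s t b' K' mC →
  (∀ m ∈ [m1, m2, m3, m3 + 1, mC, mC + 1, K.length],
    ((K.take m).map (kd s)).Perm ((K'.take m).map (kd s))) →
  ∀ x < t, b x = b' x

/-- PIG: exponential beats polynomial. -/
def PIGStmt : Prop := ∀ s c d a : ℕ, ∃ t, 1 ≤ t ∧ c * (Mb s t + d) ^ a < 2 ^ t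

/-- CUTK: the cut used for the word W(s,t,b). -/
def CUTKStmt : Prop := ∀ (N Q : Type) [Fintype N] (L : List Ltr → Prop) (rho : ℕ)
  (sys : CutSys N Q L rho), (∀ w, L w → Good w) →
  ∀ (s t : ℕ) (b : ℕ → Bool), s = Fintype.card N → 1 ≤ t → L (WW s t b) →
  ∃ (q : Q) (K : List (Sg N)), sys.Cut q K ∧ yl K = WW s t b ∧ K.length ≤ Mb s t + rho ∧
    ((∃ off m1 m2 m3, Mk1 s t b K 0 off m1 m2 m3) ∨
      ∃ e off m1 m2 m3 mC, 1 ≤ e ∧ Mk1 s t b K e off m1 m2 m3 ∧ Mk2 s t b K mC)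

/-- FIN: no cut system. -/
def FINStmt : Prop := ∀ (N Q : Type) [Fintype N] [Fintype Q] (L : List Ltr → Prop) (rho : ℕ)
  (_sys : CutSys N Q L rho), (∀ w, L w → Good w) → (∀ (s t : ℕ) (b : ℕ → Bool), L (WW s t b)) → False

/-! ### Grammars -/

/-- DFF: the derivations of the frozen statement are the derivations Der. -/
def DFFStmt : Prop := ∀ (T N Λ : Type) (lb : Λ → ContextFreeRule T N) (rs : List Λ)
  (u w : List (Symbol T N)),
  (∃ f : Fin (rs.length + 1) → List (Symbol T N), f 0 = u ∧ f (Fin.last rs.length) = w ∧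
    ∀ i : Fin rs.length, (lb (rs.get i)).Rewrites (f i.castSucc) (f i.succ)) ↔ Der lb rs u w

/-- PRA: a derivation of a terminal word splits over the symbols. -/
def PRAStmt : Prop := ∀ (T N Λ : Type) (lb : Λ → ContextFreeRule T N) (rs : List Λ)
  (u : List (Symbol T N)) (w : List T), Der lb rs u (w.map Symbol.terminal) →
  ∃ K : List (Symbol T N × List T), K.map Prod.fst = u ∧ K.flatMap Prod.snd = w ∧ Par lb rs K

/-- PRB: conversely. -/
def PRBStmt : Prop := ∀ (T N Λ : Type) (lb : Λ → ContextFreeRule T N) (rs : List Λ)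
  (K : List (Symbol T N × List T)), Par lb rs K →
  Der lb rs (K.map Prod.fst) ((K.flatMap Prod.snd).map Symbol.terminal)

/-- PRC: permutation invariance, terminals, nonempty yields. -/
def PRCStmt : Prop := ∀ (T N Λ : Type) (lb : Λ → ContextFreeRule T N) (rs : List Λ)
  (K : List (Symbol T N × List T)), Par lb rs K →
  (∀ B : List (Symbol T N × List T), B.Perm K → Par lb rs B) ∧
  (∀ (a : T) (y : List T), (Symbol.terminal a, y) ∈ K → y = [a]) ∧
  ((∀ l : Λ, (lb l).output ≠ []) → ∀ x ∈ K, x.2 ≠ [])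

/-- CSY: the cut system of a propagating grammar. -/
def CSYStmt : Prop := ∀ (N Λ σ : Type) [Fintype Λ] (S : N) (lb : Λ → ContextFreeRule Ltr N)
  (M : DFA Λ σ), (∀ l : Λ, (lb l).output ≠ []) →
  ∃ rho : ℕ, Nonempty (CutSys N σ (LG S lb M) rho)

/-- SND: all words of the erasing grammar are good. -/
def SNDStmt : Prop := ∀ w : List Ltr, LH w → Good w

/-- CMP: the erasing grammar generates the words of uniform forests. -/
def CMPStmt : Prop := ∀ (v : List (Fin 4)) (ts : List BT), (∀ x ∈ ts, BT.UD v x) →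
  (ts.map BT.dc).sum = F v → LH (v.map Ltr.vl ++ ts.flatMap BT.word)

/-- CMW: the bracket part of W is the word of a uniform forest. -/
def CMWStmt : Prop := ∀ (s t : ℕ) (b : ℕ → Bool), ∃ ts : List BT,
  (∀ x ∈ ts, BT.UD (vpart s t b) x) ∧ (ts.map BT.dc).sum = F (vpart s t b) ∧
  Bpart s t b = ts.flatMap BT.word

end Pool.Agent.H51.ERA
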