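import Pool.Agent.H51.ERA.Stmts
import Pool.Agent.H51.ERA.Base

set_option autoImplicit false

namespace Pool.Agent.H51.ERA.CM

abbrev Fm := List (Symbol Ltr NT)

theorem der_append {T N Λ : Type} {lb : Λ → ContextFreeRule T N} {rs rs' : List Λ}
    {u v w : List (Symbol T N)} (h : Der lb rs u v) (h' : Der lb rs' v w) :
    Der lb (rs ++ rs') u w := by
  induction h with
  | nil u => exact h'
  | cons hr _ ih => exact Der.cons hr (ih h')

theorem der_congr {T N Λ : Type} {lb : Λ → ContextFreeRule T N} {rs : List Λ}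
    {u v : List (Symbol T N)} (h : Der lb rs u v) (x y : List (Symbol T N)) :
    Der lb rs (x ++ u ++ y) (x ++ v ++ y) := by
  induction h with
  | nil u => exact Der.nil _
  | cons hr _ ih => exact Der.cons ((hr.append_left x).append_right y) ih

/-- runs of the grammar -/
def Rn (q : St) (u : Fm) (q' : St) (u' : Fm) : Prop :=
  ∃ rs : List Rl, MH.evalFrom q rs = q' ∧ Der rul rs u u'

theorem Rn.refl (q : St) (u : Fm) : Rn q u q u := ⟨[], rfl, Der.nil u⟩

theorem Rn.trans {q q' q'' : St} {u u' u'' : Fm} (h : Rn q u q' u') (h' : Rn q' u' q'' u'') :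
    Rn q u q'' u'' := by
  obtain ⟨rs, h1, h2⟩ := h
  obtain ⟨rs', h1', h2'⟩ := h'
  refine ⟨rs ++ rs', ?_, der_append h2 h2'⟩
  rw [DFA.evalFrom_of_append, h1, h1']

theorem Rn.congr {q q' : St} {u u' : Fm} (h : Rn q u q' u') (x y : Fm) :
    Rn q (x ++ u ++ y) q' (x ++ u' ++ y) := by
  obtain ⟨rs, h1, h2⟩ := h
  exact ⟨rs, h1, der_congr h2 x y⟩

theorem Rn.left {q q' : St} {u u' : Fm} (h : Rn q u q' u') (x : Fm) :
    Rn q (x ++ u) q' (x ++ u') := by
  have := h.congr x []
  simpa using this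

theorem Rn.right {q q' : St} {u u' : Fm} (h : Rn q u q' u') (y : Fm) :
    Rn q (u ++ y) q' (u' ++ y) := by
  have := h.congr [] y
  simpa using this

theorem Rn.app {q q' q'' : St} {u u' w w' : Fm} (h : Rn q u q' u') (h' : Rn q' w q'' w') :
    Rn q (u ++ w) q'' (u' ++ w') := (h.right w).trans (h'.left u')

theorem Rn.step (q : St) (r : Rl) :
    Rn q [Symbol.nonterminal (rul r).input] (stepH q r) (rul r).output :=
  ⟨[r], rfl, Der.cons ContextFreeRule.Rewrites.input_output (Der.nil _)⟩

theorem Rn.flat {q : St} (ts : List BT) (f g : BT → Fm) (h : ∀ x ∈ ts, Rn q (f x) q (g x)) :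
    Rn q (ts.flatMap f) q (ts.flatMap g) := by
  induction ts with
  | nil => exact Rn.refl _ _
  | cons x ts ih =>
    rw [List.flatMap_cons, List.flatMap_cons]
    exact (h x List.mem_cons_self).app (ih fun y hy => h y (List.mem_cons_of_mem _ hy))

/-- truncated trees -/
def trc (A : NT) : ℕ → BT → Fm
  | 0, _ => [.nonterminal A]
  | _ + 1, BT.leaf d => [.terminal (if d then Ltr.dd else Ltr.ee)]
  | j + 1, BT.one a t => [.terminal (Ltr.op a)] ++ (trc A j t ++ [.terminal (Ltr.cl a)])
  | j + 1, BT.two a t₁ t₂ =>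
    [.terminal (Ltr.op a)] ++ ((trc A j t₁ ++ trc A j t₂) ++ [.terminal (Ltr.cl a)])

theorem move (τ : Fin 4) (j : ℕ) : ∀ (v : List (Fin 4)) (x : BT), BT.UD v x → v[j]? = some τ →
    Rn (St.qM τ) (trc NT.X j x) (St.qM τ) (trc NT.X' (j + 1) x) := by
  induction j with
  | zero =>
    intro v x hx hv
    cases v with
    | nil => simp at hv
    | cons τ' v =>
      simp only [List.length_cons, Nat.zero_lt_succ, getElem?_pos, List.getElem_cons_zero,
        Option.some.injEq] at hv
      subst hv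
      cases x with
      | leaf d => exact absurd hx (by simp [BT.UD])
      | one a t =>
        have h1 := Rn.step (St.qM τ') (Rl.mv a)
        have h2 : stepH (St.qM τ') (Rl.mv a) = St.qM τ' := by simp [stepH, hx.1]
        rw [h2] at h1
        exact h1
      | two a t t' =>
        have h1 := Rn.step (St.qM τ') (Rl.br a)
        have h2 : stepH (St.qM τ') (Rl.br a) = St.qM τ' := by simp [stepH, hx.1]
        rw [h2] at h1
        exact h1
  | succ j ih =>
    intro v x hx hv
    cases v with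
    | nil => simp at hv
    | cons τ' v =>
      have hv' : v[j]? = some τ := by simpa using hv
      cases x with
      | leaf d => exact absurd hx (by simp [BT.UD])
      | one a t =>
        exact ((ih v t hx.2 hv').right _).left _
      | two a t t' =>
        exact ((((ih v t hx.2.1 hv').app (ih v t' hx.2.2 hv'))).right _).left _

theorem ret (j : ℕ) : ∀ (v : List (Fin 4)) (x : BT), BT.UD v x → j ≤ v.length →
    Rn St.qR (trc NT.X' j x) St.qR (trc NT.X j x) := by
  induction j with
  | zero =>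
    intro v x _ _
    exact Rn.step St.qR Rl.retX
  | succ j ih =>
    intro v x hx hv
    cases v with
    | nil => simp at hv
    | cons τ' v =>
      have hv' : j ≤ v.length := by simpa using hv
      cases x with
      | leaf d => exact absurd hx (by simp [BT.UD])
      | one a t => exact ((ih v t hx.2 hv').right _).left _
      | two a t t' =>
        exact ((((ih v t hx.2.1 hv').app (ih v t' hx.2.2 hv'))).right _).left _

/-- tokens -/
def tk (A : NT) (m : ℕ) : Fm := List.replicate m (.nonterminal A)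

theorem tk_succ (A : NT) (m : ℕ) : tk A (m + 1) = [.nonterminal A] ++ tk A m := rfl

theorem tk_add (A : NT) (m n : ℕ) : tk A (m + n) = tk A m ++ tk A n := by
  unfold tk
  exact List.replicate_add ..

theorem dbl (τ : Fin 4) (hτ : τ < 2) (m : ℕ) :
    Rn (St.qM τ) (tk NT.c m) (St.qM τ) (tk NT.c' (2 * m)) := by
  induction m with
  | zero => exact Rn.refl _ _
  | succ m ih =>
    have h1 := Rn.step (St.qM τ) Rl.dbl
    have h2 : stepH (St.qM τ) Rl.dbl = St.qM τ := by simp [stepH, hτ]
    rw [h2] at h1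
    have h3 : tk NT.c' (2 * (m + 1)) = (rul Rl.dbl).output ++ tk NT.c' (2 * m) := by
      have e : 2 * (m + 1) = 2 * m + 1 + 1 := by ring
      rw [e, tk_succ, tk_succ]; rfl
    rw [h3, tk_succ]
    exact h1.app ih

theorem retc (m : ℕ) : Rn St.qR (tk NT.c' m) St.qR (tk NT.c m) := by
  induction m with
  | zero => exact Rn.refl _ _
  | succ m ih =>
    rw [tk_succ, tk_succ]
    exact (Rn.step St.qR Rl.retc).app ih

/-- forms -/
def frm (vv : List (Fin 4)) (A : NT) (j : ℕ) (ts : List BT) (C : Fm) : Fm :=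
  vv.map (fun τ => Symbol.terminal (Ltr.vl τ)) ++
    ([Symbol.nonterminal NT.P] ++ (ts.flatMap (trc A j) ++ ([Symbol.nonterminal NT.Z] ++ C)))

theorem F_snoc (v : List (Fin 4)) (τ : Fin 4) : F (v ++ [τ]) =
    if τ = 0 then 2 * F v else if τ = 1 then 2 * F v + 1 else F v := by
  unfold F
  rw [List.foldl_append]
  rfl

/-- second half of a phase -/
theorem half (τ : Fin 4) (v vv : List (Fin 4)) (j : ℕ) (ts : List BT) (hts : ∀ x ∈ ts, BT.UD v x)
    (hj : v[j]? = some τ) (C C' C'' : Fm) (h1 : Rn (St.qM τ) C (St.qM τ) C')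
    (h2 : Rn St.qR C' St.qR C'') :
    Rn (St.qM τ) (frm vv NT.X j ts C) St.qR (frm vv NT.X (j + 1) ts C'') := by
  have hjl : j + 1 ≤ v.length := by
    obtain ⟨h, _⟩ := List.getElem?_eq_some_iff.1 hj
    omega
  have a1 : Rn (St.qM τ) (frm vv NT.X j ts C) (St.qM τ) (frm vv NT.X' (j + 1) ts C') := by
    refine Rn.left (Rn.left (Rn.app (Rn.flat ts _ _ fun x hx => move τ j v x (hts x hx) hj) ?_) _) _
    exact h1.left _
  have a2 : Rn (St.qM τ) (frm vv NT.X' (j + 1) ts C') St.qR (frm vv NT.X' (j + 1) ts C') := by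
    refine Rn.left (Rn.left (Rn.left (Rn.right ?_ _) _) _) _
    exact Rn.step (St.qM τ) Rl.go
  have a3 : Rn St.qR (frm vv NT.X' (j + 1) ts C') St.qR (frm vv NT.X (j + 1) ts C'') := by
    refine Rn.left (Rn.left (Rn.app (Rn.flat ts _ _ fun x hx => ret (j + 1) v x (hts x hx) hjl) ?_) _) _
    exact h2.left _
  exact (a1.trans a2).trans a3

theorem start (τ : Fin 4) (vv : List (Fin 4)) (j : ℕ) (ts : List BT) (C : Fm) (q : St)
    (hq : stepH St.qR (Rl.rv τ) = q) :
    Rn St.qR (frm vv NT.X j ts C) q (frm (vv ++ [τ]) NT.X j ts C) := by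
  have h1 := Rn.step St.qR (Rl.rv τ)
  rw [hq] at h1
  have h2 := (h1.congr (vv.map (fun τ => Symbol.terminal (Ltr.vl τ)))
    (ts.flatMap (trc NT.X j) ++ ([Symbol.nonterminal NT.Z] ++ C)))
  have e1 : frm vv NT.X j ts C = vv.map (fun τ => Symbol.terminal (Ltr.vl τ)) ++
    [Symbol.nonterminal (rul (Rl.rv τ)).input] ++
    (ts.flatMap (trc NT.X j) ++ ([Symbol.nonterminal NT.Z] ++ C)) := by
    simp [frm, rul]
  have e2 : frm (vv ++ [τ]) NT.X j ts C = vv.map (fun τ => Symbol.terminal (Ltr.vl τ)) ++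
    (rul (Rl.rv τ)).output ++
    (ts.flatMap (trc NT.X j) ++ ([Symbol.nonterminal NT.Z] ++ C)) := by
    simp [frm, rul]
  rw [e1, e2]
  exact h2

theorem phase (v : List (Fin 4)) (j : ℕ) (ts : List BT) (hts : ∀ x ∈ ts, BT.UD v x)
    (hj : j < v.length) :
    Rn St.qR (frm (v.take j) NT.X j ts (tk NT.c (F (v.take j)))) St.qR
      (frm (v.take (j + 1)) NT.X (j + 1) ts (tk NT.c (F (v.take (j + 1))))) := by
  obtain ⟨τ, hτ⟩ : ∃ τ, v[j]? = some τ := ⟨v[j], List.getElem?_eq_getElem hj⟩
  have e : v.take (j + 1) = v.take j ++ [τ] := by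
    rw [List.take_add_one, hτ]; rfl
  rw [e, F_snoc]
  set m := F (v.take j)
  have h4 : ∀ τ : Fin 4, τ = 0 ∨ τ = 1 ∨ τ = 2 ∨ τ = 3 := by decide
  rcases h4 τ with rfl | rfl | rfl | rfl
  · refine (start 0 (v.take j) j ts (tk NT.c m) (St.qM 0) rfl).trans ?_
    exact half 0 v _ j ts hts hτ _ _ _ (dbl 0 (by decide) m) (retc _)
  · refine (start 1 (v.take j) j ts (tk NT.c m) St.qN rfl).trans ?_
    have a : Rn St.qN (frm (v.take j ++ [1]) NT.X j ts (tk NT.c m)) (St.qM 1)
        (frm (v.take j ++ [1]) NT.X j ts ([.nonterminal NT.c'] ++ tk NT.c m)) := by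
      refine Rn.left (Rn.left (Rn.left ?_ _) _) _
      have h1 := (Rn.step St.qN Rl.inc).right (tk NT.c m)
      exact h1
    refine a.trans ?_
    have e2 : tk NT.c' (2 * m + 1) = [.nonterminal NT.c'] ++ tk NT.c' (2 * m) := tk_succ _ _
    refine half 1 v _ j ts hts hτ _ (tk NT.c' (2 * m + 1)) _ ?_ ?_
    · rw [e2]
      exact (dbl 1 (by decide) m).left _
    · exact retc _
  · refine (start 2 (v.take j) j ts (tk NT.c m) (St.qM 2) rfl).trans ?_
    exact half 2 v _ j ts hts hτ _ _ _ (Rn.refl _ _) (Rn.refl _ _)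
  · refine (start 3 (v.take j) j ts (tk NT.c m) (St.qM 3) rfl).trans ?_
    exact half 3 v _ j ts hts hτ _ _ _ (Rn.refl _ _) (Rn.refl _ _)

theorem phases (v : List (Fin 4)) (ts : List BT) (hts : ∀ x ∈ ts, BT.UD v x) (j : ℕ)
    (hj : j ≤ v.length) :
    Rn St.qR (frm [] NT.X 0 ts (tk NT.c 1)) St.qR
      (frm (v.take j) NT.X j ts (tk NT.c (F (v.take j)))) := by
  induction j with
  | zero => exact Rn.refl _ _
  | succ j ih => exact (ih (by omega)).trans (phase v j ts hts (by omega))

theorem blocks (ts : List BT) (R : Fm) :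
    Rn St.qR ([Symbol.nonterminal NT.P] ++ R) St.qR
      ([Symbol.nonterminal NT.P] ++ (ts.flatMap (trc NT.X 0) ++ R)) := by
  induction ts with
  | nil => exact Rn.refl _ _
  | cons x ts ih =>
    refine ih.trans ?_
    have h1 := (Rn.step St.qR Rl.rX).right (ts.flatMap (trc NT.X 0) ++ R)
    have e : ([Symbol.nonterminal NT.P] ++ ((x :: ts).flatMap (trc NT.X 0) ++ R) : Fm) =
      (rul Rl.rX).output ++ (ts.flatMap (trc NT.X 0) ++ R) := by
      simp [rul, trc]
    rw [e]
    exact h1

/-- terminal words -/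
def tw (w : List Ltr) : Fm := w.map Symbol.terminal

theorem tw_append (w w' : List Ltr) : tw (w ++ w') = tw w ++ tw w' := List.map_append

theorem fin1 : ∀ (x : BT) (v : List (Fin 4)), BT.UD v x → ∀ (z : Fm) (m : ℕ),
    Rn St.qF (trc NT.X v.length x ++ (z ++ tk NT.c (m + x.dc))) St.qF
      (tw x.word ++ (z ++ tk NT.c m)) := by
  intro x
  induction x with
  | leaf d =>
    intro v hv z m
    cases v with
    | cons τ v => exact absurd hv (by simp [BT.UD])
    | nil =>
      cases d with
      | true =>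
        have h1 : Rn St.qF (trc NT.X 0 (BT.leaf true) ++ (z ++ tk NT.c (m + 1))) St.qO
            (tw [Ltr.dd] ++ (z ++ tk NT.c (m + 1))) :=
          (Rn.step St.qF Rl.fd).right _
        have h2 : Rn St.qO (tw [Ltr.dd] ++ (z ++ tk NT.c (m + 1))) St.qF
            (tw [Ltr.dd] ++ (z ++ tk NT.c m)) := by
          refine Rn.left (Rn.left ?_ _) _
          rw [tk_succ]
          exact (Rn.step St.qO Rl.fc).right (tk NT.c m)
        exact h1.trans h2
      | false => exact (Rn.step St.qF Rl.fe).right _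
  | one a t ih =>
    intro v hv z m
    cases v with
    | nil => exact absurd hv (by simp [BT.UD])
    | cons τ v =>
      have h1 := (ih v hv.2 ([.terminal (Ltr.cl a)] ++ z) m).left [.terminal (Ltr.op a)]
      simpa [trc, BT.word, BT.dc, tw] using h1
  | two a t t' ih ih' =>
    intro v hv z m
    cases v with
    | nil => exact absurd hv (by simp [BT.UD])
    | cons τ v =>
      have h1 := (ih v hv.2.1 (trc NT.X v.length t' ++ ([.terminal (Ltr.cl a)] ++ z)) (m + t'.dc)).left
        [.terminal (Ltr.op a)]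
      have h2 := (ih' v hv.2.2 ([.terminal (Ltr.cl a)] ++ z) m).left
        ([.terminal (Ltr.op a)] ++ tw t.word)
      have e : m + (BT.two a t t').dc = m + t'.dc + t.dc := by
        simp only [BT.dc]; omega
      rw [e]
      refine Rn.trans (q' := St.qF) (u' := [.terminal (Ltr.op a)] ++ (tw t.word ++
        ((trc NT.X v.length t' ++ ([.terminal (Ltr.cl a)] ++ z)) ++ tk NT.c (m + t'.dc)))) ?_ ?_
      · simpa [trc] using h1
      · simpa [BT.word, tw] using h2

theorem fin2 (v : List (Fin 4)) (ts : List BT) (hts : ∀ x ∈ ts, BT.UD v x) (m : ℕ) :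
    Rn St.qF (ts.flatMap (trc NT.X v.length) ++ tk NT.c (m + (ts.map BT.dc).sum)) St.qF
      (tw (ts.flatMap BT.word) ++ tk NT.c m) := by
  induction ts generalizing m with
  | nil => exact Rn.refl _ _
  | cons x ts ih =>
    have h1 := fin1 x v (hts x List.mem_cons_self) (ts.flatMap (trc NT.X v.length))
      (m + (ts.map BT.dc).sum)
    have h2 := (ih (fun y hy => hts y (List.mem_cons_of_mem _ hy)) m).left (tw x.word)
    have e : m + ((x :: ts).map BT.dc).sum = m + (ts.map BT.dc).sum + x.dc := by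
      simp only [List.map_cons, List.sum_cons]; omega
    rw [e, List.flatMap_cons, List.flatMap_cons, tw_append, List.append_assoc, List.append_assoc]
    exact h1.trans h2

end Pool.Agent.H51.ERA.CM

namespace Pool.Agent.H51.ERA

open CM in
theorem CMP_thm : CMPStmt := by
  intro v ts hts hsum
  have h0 : Rn St.qS [Symbol.nonterminal NT.S] St.qR (frm [] NT.X 0 ts (tk NT.c 1)) := by
    refine (Rn.step St.qS Rl.r0).trans ?_
    exact blocks ts ([Symbol.nonterminal NT.Z] ++ tk NT.c 1)
  have h1 := phases v ts hts v.length le_rfl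
  rw [List.take_length] at h1
  have h2 : Rn St.qR (frm v NT.X v.length ts (tk NT.c (F v))) St.qF
      (v.map (fun τ => Symbol.terminal (Ltr.vl τ)) ++ ([Symbol.nonterminal NT.P] ++
        (ts.flatMap (trc NT.X v.length) ++ tk NT.c (F v)))) := by
    refine Rn.left (Rn.left (Rn.left ?_ _) _) _
    exact (Rn.step St.qR Rl.fZ).right (tk NT.c (F v))
  have h3 : Rn St.qF (v.map (fun τ => Symbol.terminal (Ltr.vl τ)) ++ ([Symbol.nonterminal NT.P] ++
        (ts.flatMap (trc NT.X v.length) ++ tk NT.c (F v)))) St.qF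
      (v.map (fun τ => Symbol.terminal (Ltr.vl τ)) ++ ([Symbol.nonterminal NT.P] ++
        (tw (ts.flatMap BT.word) ++ tk NT.c 0))) := by
    refine Rn.left (Rn.left ?_ _) _
    have := fin2 v ts hts 0
    rw [Nat.zero_add, hsum] at this
    exact this
  have h4 : Rn St.qF (v.map (fun τ => Symbol.terminal (Ltr.vl τ)) ++ ([Symbol.nonterminal NT.P] ++
        (tw (ts.flatMap BT.word) ++ tk NT.c 0))) St.qF
      (v.map (fun τ => Symbol.terminal (Ltr.vl τ)) ++ ([] ++
        (tw (ts.flatMap BT.word) ++ tk NT.c 0))) := by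
    refine Rn.left (Rn.right ?_ _) _
    exact Rn.step St.qF Rl.fP
  obtain ⟨rs, hr, hd⟩ := (((h0.trans h1).trans h2).trans h3).trans h4
  refine ⟨rs, ?_, ?_⟩
  · have e : MH.eval rs = St.qF := hr
    rw [e]
    exact Set.mem_singleton _
  · have e : ((v.map Ltr.vl ++ ts.flatMap BT.word).map Symbol.terminal : Fm) =
      (v.map (fun τ => Symbol.terminal (Ltr.vl τ)) ++ ([] ++
        (tw (ts.flatMap BT.word) ++ tk NT.c 0))) := by
      simp [tw, tk]
    rw [e]
    exact hd

end Pool.Agent.H51.ERA
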