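import Pool.Agent.H51.ERA.Stmts
import Pool.Agent.H51.ERA.Base

set_option autoImplicit false

namespace Pool.Agent.H51.ERA

theorem DISJ_thm (hNEST : NESTStmt) : DISJStmt := by
  intro s t x i i' p
  induction p with
  | nil =>
    intro p' h h' hl h1 h2 h3 h4
    have hp' : p' = [] := List.eq_nil_of_length_eq_zero (by simpa using hl.symm)
    subst hp'
    refine ⟨?_, rfl⟩
    simp only [lo, hi, List.length_nil, Nat.sub_zero] at h1 h2 h3 h4
    set T := tl s t (DD t)
    rcases lt_trichotomy i i' with hlt | heq | hgt
    · have : (i + 1) * T ≤ i' * T := Nat.mul_le_mul_right _ hlt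
      rw [Nat.add_mul, Nat.one_mul] at this
      omega
    · exact heq
    · have : (i' + 1) * T ≤ i * T := Nat.mul_le_mul_right _ hgt
      rw [Nat.add_mul, Nat.one_mul] at this
      omega
  | cons c r ih =>
    intro p' h h' hl h1 h2 h3 h4
    cases p' with
    | nil => simp at hl
    | cons c' r' =>
      have hl' : r.length = r'.length := by simpa using hl
      have hn : IsNode s t i r := ⟨h.1, by have := h.2; simp only [List.length_cons] at this; omega⟩
      have hn' : IsNode s t i' r' := ⟨h'.1, by have := h'.2; simp only [List.length_cons] at this; omega⟩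
      obtain ⟨a1, a2⟩ := hNEST s t i r c h
      obtain ⟨b1, b2⟩ := hNEST s t i' r' c' h'
      obtain ⟨e1, e2⟩ := ih r' hn hn' hl' (by omega) (by omega) (by omega) (by omega)
      subst e1 e2
      refine ⟨rfl, ?_⟩
      cases c <;> cases c' <;> simp only [lo, hi, List.length_cons, if_true, Bool.false_eq_true, if_false] at h1 h2 h3 h4 ⊢ <;> omega

end Pool.Agent.H51.ERA
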