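import Pool.Agent.H51.ERA.Stmts
import Pool.Agent.H51.ERA.Base

set_option autoImplicit false

namespace Pool.Agent.H51.ERA

theorem Fb_zero (b : ℕ → Bool) : Fb 0 b = 1 := rfl

theorem Fb_succ (t : ℕ) (b : ℕ → Bool) : Fb (t + 1) b = 2 * Fb t b + (if b t then 1 else 0) := by
  unfold Fb bits F
  rw [List.range_succ, List.map_append, List.foldl_append]
  cases h : b t <;> simp [h]

theorem FBV_thm : FBVStmt := by
  refine ⟨?_, ?_, ?_⟩
  · intro v
    have key : ∀ (v : List (Fin 4)) (x : ℕ),
        v.foldl (fun x τ => if τ = 0 then 2 * x else if τ = 1 then 2 * x + 1 else x) x =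
        (v.filter (fun τ => decide (τ < 2))).foldl
          (fun x τ => if τ = 0 then 2 * x else if τ = 1 then 2 * x + 1 else x) x := by
     intro v
     induction v with
     | nil => intro x; rfl
     | cons τ v ih =>
      intro x
      have h4 : τ = 0 ∨ τ = 1 ∨ τ = 2 ∨ τ = 3 := by revert τ; decide
      rcases h4 with rfl | rfl | rfl | rfl
      · simpa using ih (2 * x)
      · simpa using ih (2 * x + 1)
      · have e : (decide ((2 : Fin 4) < 2)) = false := by decide
        rw [List.filter_cons_of_neg (by rw [e]; simp)]
        simpa using ih x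
      · have e : (decide ((3 : Fin 4) < 2)) = false := by decide
        rw [List.filter_cons_of_neg (by rw [e]; simp)]
        simpa using ih x
    exact key v 1
  · intro t b
    induction t with
    | zero => simp [Fb_zero]
    | succ t ih =>
      rw [Fb_succ, pow_succ, pow_succ 2 (t + 1)]
      split_ifs <;> omega
  · intro t b b'
    induction t with
    | zero => intro _ j hj; omega
    | succ t ih =>
      intro h j hj
      rw [Fb_succ, Fb_succ] at h
      have h1 : Fb t b = Fb t b' ∧ b t = b' t := by
        cases e : b t <;> cases e' : b' t <;> rw [e, e'] at h <;> simp at h ⊢ <;> omega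
      rcases Nat.lt_succ_iff_lt_or_eq.1 hj with hj' | rfl
      · exact ih h1.1 j hj'
      · exact h1.2

end Pool.Agent.H51.ERA
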