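import Pool.Agent.H51.ERA.Stmts

/-!
MP_e0047e_lc: rows DFF, PRA, PRB.
-/

set_option autoImplicit false

namespace Pool.Agent.H51.ERA

theorem DFF_thm : DFFStmt := by
  intro T N Λ lb rs
  induction rs with
  | nil =>
    intro u w
    constructor
    · rintro ⟨f, h0, h1, -⟩
      have : u = w := by rw [← h0, ← h1]; rfl
      rw [this]; exact Der.nil w
    · intro h
      cases h
      exact ⟨fun _ => u, rfl, rfl, fun i => i.elim0⟩
  | cons r rs ih =>
    intro u w
    constructor
    · rintro ⟨f, h0, h1, hf⟩
      have hr : (lb r).Rewrites u (f 1) := by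
        have := hf (0 : Fin (rs.length + 1))
        rw [← h0]
        exact this
      refine Der.cons hr ((ih (f 1) w).1 ⟨fun i => f i.succ, rfl, ?_, ?_⟩)
      · rw [← h1]; rfl
      · intro i
        exact hf i.succ
    · intro h
      cases h with
      | cons hr hd =>
        rename_i v
        obtain ⟨g, g0, g1, hg⟩ := (ih v w).2 hd
        refine ⟨Fin.cons u g, rfl, ?_, ?_⟩
        · rw [← g1]; rfl
        · intro i
          refine Fin.cases ?_ ?_ i
          · show (lb r).Rewrites u (g 0)
            rw [g0]; exact hr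
          · intro i
            exact hg i

theorem PRA_thm : PRAStmt := by
  intro T N Λ lb rs
  induction rs with
  | nil =>
    intro u w h
    cases h
    refine ⟨w.map (fun a => (Symbol.terminal a, [a])), ?_, ?_, Par.nil w⟩
    · rw [List.map_map]; rfl
    · rw [List.flatMap_map]
      simp
  | cons r rs ih =>
    intro u w h
    cases h with
    | cons hr hd =>
      rename_i v
      obtain ⟨K, hK1, hK2, hK3⟩ := ih v w hd
      obtain ⟨p, q, rfl, rfl⟩ := ContextFreeRule.rewrites_iff.1 hr
      obtain ⟨Kp, K₂, rfl, hp, hq⟩ := List.map_eq_append_iff.1 hK1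
      obtain ⟨K₁, Ks, rfl, hp1, hp2⟩ := List.map_eq_append_iff.1 hp
      refine ⟨K₁ ++ [(Symbol.nonterminal (lb r).input, Ks.flatMap Prod.snd)] ++ K₂, ?_, ?_,
        Par.cons r rs K₁ Ks K₂ hp2 hK3⟩
      · simp [hp1, hq]
      · rw [← hK2]; simp

theorem PRB_thm : PRBStmt := by
  intro T N Λ lb rs K h
  induction h with
  | nil w =>
    have h1 : (w.map fun a => ((Symbol.terminal a : Symbol T N), [a])).map Prod.fst =
        w.map Symbol.terminal := by rw [List.map_map]; rfl
    have h2 : (w.map fun a => ((Symbol.terminal a : Symbol T N), [a])).flatMap Prod.snd = w := by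
      rw [List.flatMap_map]; simp
    rw [h1, h2]
    exact Der.nil _
  | cons r rs K₁ Ks K₂ hs _ ih =>
    refine Der.cons (v := (K₁ ++ Ks ++ K₂).map Prod.fst) ?_ ?_
    · rw [ContextFreeRule.rewrites_iff]
      exact ⟨K₁.map Prod.fst, K₂.map Prod.fst, by simp, by simp [hs]⟩
    · have h2 : (K₁ ++ [((Symbol.nonterminal (lb r).input : Symbol T N), Ks.flatMap Prod.snd)] ++ K₂).flatMap Prod.snd = (K₁ ++ Ks ++ K₂).flatMap Prod.snd := by simp
      rw [h2]
      exact ih

end Pool.Agent.H51.ERA
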