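import Pool.Agent.H51.ERA.Stmts
import Pool.Agent.H51.ERA.Base

/-!
MP_e0047e_lc: row USE.
-/

set_option autoImplicit false

namespace Pool.Agent.H51.ERA

theorem USE_thm : USEStmt := by
  intro s t N K i p ⟨j, hj, h1, h2, h3⟩ ⟨j', hj', h4, h5⟩
  have hg : gg s t = lam s + t + ll s t := rfl
  have hl : lam s ≤ ll s t := by unfold ll; omega
  by_cases hc : ps K (j + 1) ≤ lo s t i p + gg s t
  · right
    exact ⟨j, hj, h1, by omega, hc⟩
  · left
    have hjj : j + 1 ≤ j' := by
      by_contra hcon
      have := ps_mono K (show j' ≤ j by omega)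
      omega
    have := ps_mono K hjj
    exact ⟨j, hj, by omega, by omega, by omega⟩

end Pool.Agent.H51.ERA
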