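import Pool.Agent.H51.ERA.Asm
import Pool.Agent.H51.ERA.GrA
import Pool.Agent.H51.ERA.USE
import Pool.Agent.H65.ERA.TLN
import Pool.Agent.H65.ERA.WLEN
import Pool.Agent.H65.ERA.UNQ
import Pool.Agent.H65.ERA.PER
import Pool.Agent.H1.ERA.SUB
import Pool.Agent.H58.ERA.HT
import Pool.Agent.H58.ERA.ROOT
import Pool.Agent.H87.ERA.LEFT
import Pool.Agent.H87.ERA.NEST
import Pool.Agent.H51.ERA.DISJ
import Pool.Agent.H51.ERA.FBV
import Pool.Agent.H4.ERA.COV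
import Pool.Agent.H4.ERA.HFB
import Pool.Agent.H33.ERA.KEY
import Pool.Agent.H68.ERA.CNW
import Pool.Agent.H93.ERA.SW
import Pool.Agent.H93.ERA.PRC
import Pool.Agent.H53.ERA.LEMA
import Pool.Agent.H57.ERA.LEMB
import Pool.Agent.H57.ERA.CMW
import Pool.Agent.H21.ERA.SCNT
import Pool.Agent.H21.ERA.FIN
import Pool.Agent.H19.ERA.ECNT
import Pool.Agent.H88.ERA.OPN
import Pool.Agent.H25.ERA.LEN
import Pool.Agent.H37.ERA.MK1
import Pool.Agent.H37.ERA.MK2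
import Pool.Agent.H37.ERA.ARR
import Pool.Agent.H5.ERA.HC1
import Pool.Agent.H74.ERA.HFA
import Pool.Agent.H64.ERA.PIG
import Pool.Agent.H18.ERA.CUTK
import Pool.Agent.H12.ERA.CSY
import Pool.Agent.H40.ERA.SND
import Pool.Agent.H51.ERA.CMP

/-!
MP_e0047e_lc: all modules of board era put together.
-/

set_option autoImplicit false

namespace Pool.Agent.H51.ERA

theorem TLN_f : TLNStmt := tln_thm
theorem SUB_f : SUBStmt := Pool.Agent.H1.ERA.sub_thm TLN_f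
theorem OPS_f : OPSStmt := Pool.Agent.H1.ERA.ops_thm SUB_f
theorem HT_f : HTStmt := Pool.Agent.H58.ERA.HT_thm SUB_f TLN_f OPS_f
theorem LEFT_f : LEFTStmt := Pool.Agent.H87.ERA.LEFT_thm SUB_f
theorem NEST_f : NESTStmt := Pool.Agent.H87.ERA.NEST_thm
theorem WLEN_f : WLENStmt := wlen_thm SUB_f TLN_f
theorem DISJ_f : DISJStmt := DISJ_thm NEST_f
theorem COV_f : COVStmt := Pool.Agent.H4.ERA.COV_thm WLEN_f
theorem KEY_f : KEYStmt := Pool.Agent.H33.ERA.KEY_thm SUB_f TLN_f OPS_f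
theorem UNQ_f : UNQStmt := unq_thm
theorem PER_f : PERStmt := per_thm
theorem FBV_f : FBVStmt := FBV_thm
theorem CNW_f : CNWStmt := Pool.Agent.H68.ERA.CNW_thm TLN_f FBV_f
theorem SW_f : SWStmt := Pool.Agent.H93.ERA.SW_thm
theorem LEMA_f : LEMAStmt := Pool.Agent.H53.ERA.LEMA_thm SW_f KEY_f UNQ_f
theorem LEMB_f : LEMBStmt := Pool.Agent.H57.ERA.LEMB_thm SW_f OPS_f PER_f DISJ_f NEST_f
theorem SCNT_f : SCNTStmt := Pool.Agent.H21.ERA.SCNT_thm LEMA_f DISJ_f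
theorem ECNT_f : ECNTStmt := Pool.Agent.H19.ERA.ECNT_thm LEMB_f
theorem ROOT_f : ROOTStmt := Pool.Agent.H58.ERA.ROOT_thm USE_thm LEMA_f LEMB_f DISJ_f
theorem OPN_f : OPNStmt := Pool.Agent.H88.ERA.OPN_thm USE_thm SCNT_f ECNT_f NEST_f
theorem LEN_f : LENStmt := Pool.Agent.H25.ERA.LEN_thm COV_f OPN_f WLEN_f
theorem MK1_f : MK1Stmt := Pool.Agent.H37.ERA.mk1 OPS_f HT_f LEFT_f WLEN_f
theorem MK2_f : MK2Stmt := Pool.Agent.H37.ERA.mk2 HT_f LEFT_f WLEN_f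
theorem ARR_f : ARRStmt := Pool.Agent.H37.ERA.arr
theorem HC1_f : HC1Stmt := Pool.Agent.H5.ERA.HC1_thm CNW_f
theorem HC2_f : HC2Stmt := Pool.Agent.H5.ERA.HC2_thm CNW_f
theorem HFA_f : HFAStmt := Pool.Agent.H74.ERA.HFA_thm ARR_f HC1_f CNW_f FBV_f
theorem HFB_f : HFBStmt := Pool.Agent.H4.ERA.HFB_thm ARR_f HC1_f HC2_f
theorem PIG_f : PIGStmt := Pool.Agent.H64.ERA.PIG_thm
theorem CUTK_f : CUTKStmt := Pool.Agent.H18.ERA.CUTK_thm WLEN_f LEN_f ROOT_f MK1_f MK2_f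
theorem FIN_f : FINStmt := Pool.Agent.H21.ERA.FIN_thm CUTK_f HFA_f HFB_f FBV_f PIG_f
theorem PRC_f : PRCStmt := Pool.Agent.H93.ERA.PRC_thm
theorem CSY_f : CSYStmt := Pool.Agent.H12.ERA.CSY_thm PRA_thm PRB_thm PRC_f
theorem SND_f : SNDStmt := Pool.Agent.H40.ERA.SND_thm
theorem CMP_f : CMPStmt := CMP_thm
theorem CMW_f : CMWStmt := Pool.Agent.H57.ERA.CMW_thm CNW_f

end Pool.Agent.H51.ERA
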