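import Pool.Agent.H51.ERA.Stmts
import Pool.Agent.H51.ERA.Base

/-!
MP_e0047e_lc: assembly from the module statements.
-/

set_option autoImplicit false

namespace Pool.Agent.H51.ERA

theorem WW_mem_LH (hCMP : CMPStmt) (hCMW : CMWStmt) (s t : ℕ) (b : ℕ → Bool) :
    LH (WW s t b) := by
  obtain ⟨ts, h1, h2, h3⟩ := hCMW s t b
  unfold WW
  rw [h3]
  exact hCMP _ ts h1 h2

theorem WW_ne_nil (s t : ℕ) (b : ℕ → Bool) : WW s t b ≠ [] := by
  intro h
  have h1 := congrArg List.length h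
  unfold WW vpart at h1
  simp only [List.length_append, List.length_map, List.length_range, List.length_nil] at h1
  have h2 : 0 < nn s t := by
    unfold nn gg ll DD
    positivity
  omega

theorem main (hFIN : FINStmt) (hCSY : CSYStmt) (hSND : SNDStmt) (hCMP : CMPStmt)
    (hCMW : CMWStmt) (hDFF : DFFStmt) :
    ¬ (∀ (T : Type) [Fintype T] (N : Type) [Fintype N] (S : N) (Λ : Type) [Fintype Λ]
      (lab : Λ → ContextFreeRule T N) (σ : Type) [Fintype σ] (M : DFA Λ σ),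
    ∃ (N' : Type) (_ : Fintype N') (S' : N') (Λ' : Type) (_ : Fintype Λ')
      (lab' : Λ' → ContextFreeRule T N') (σ' : Type) (_ : Fintype σ') (M' : DFA Λ' σ'),
      (∀ l : Λ', (lab' l).output ≠ []) ∧
      ∀ w : List T,
        ((∃ rs : List Λ', rs ∈ M'.accepts ∧
            ∃ f : Fin (rs.length + 1) → List (Symbol T N'),
              f 0 = [Symbol.nonterminal S'] ∧
              f (Fin.last rs.length) = w.map Symbol.terminal ∧
              ∀ i : Fin rs.length, (lab' (rs.get i)).Rewrites (f i.castSucc) (f i.succ)) ↔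
          ((∃ rs : List Λ, rs ∈ M.accepts ∧
              ∃ f : Fin (rs.length + 1) → List (Symbol T N),
                f 0 = [Symbol.nonterminal S] ∧
                f (Fin.last rs.length) = w.map Symbol.terminal ∧
                ∀ i : Fin rs.length, (lab (rs.get i)).Rewrites (f i.castSucc) (f i.succ)) ∧
            w ≠ []))) := by
  intro h
  obtain ⟨N', iN, S', Λ', iΛ, lab', σ', iσ, M', hne, hw⟩ := h Ltr NT NT.S Rl rul St MH
  have key : ∀ w : List Ltr, LG S' lab' M' w ↔ (LH w ∧ w ≠ []) := by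
    intro w
    have h1 := hw w
    unfold LH LG
    constructor
    · rintro ⟨rs, hrs, hd⟩
      have h2 := h1.1 ⟨rs, hrs, (hDFF _ _ _ lab' rs _ _).2 hd⟩
      obtain ⟨⟨rs', hrs', f⟩, hnil⟩ := h2
      exact ⟨⟨rs', hrs', (hDFF _ _ _ rul rs' _ _).1 f⟩, hnil⟩
    · rintro ⟨⟨rs, hrs, hd⟩, hnil⟩
      have h2 := h1.2 ⟨⟨rs, hrs, (hDFF _ _ _ rul rs _ _).2 hd⟩, hnil⟩
      obtain ⟨rs', hrs', f⟩ := h2
      exact ⟨rs', hrs', (hDFF _ _ _ lab' rs' _ _).1 f⟩
  obtain ⟨rho, ⟨sys⟩⟩ := hCSY N' Λ' σ' S' lab' M' hne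
  exact hFIN N' σ' (LG S' lab' M') rho sys (fun w hw' => hSND w ((key w).1 hw').1)
    (fun s t b => (key _).2 ⟨WW_mem_LH hCMP hCMW s t b, WW_ne_nil s t b⟩)

end Pool.Agent.H51.ERA
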