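import Mathlib

/-!
MP_e0047e_lc, erasing rules in regular-controlled grammars.  Definitions for the disproof
(paper: /team-store/ERASING_DISPROOF_helper51.md, author helper51).

Paths of nodes are stored DEEPEST BIT FIRST: the children of (i, p) are (i, false :: p), (i, true :: p).
Stacks have their top at the head of the list.
-/

set_option autoImplicit false

namespace Pool.Agent.H51.ERA

/-- Labels of the brackets. -/
abbrev Lab := Bool × Fin 4

/-- Stack entries: (type, label). -/
abbrev Ent := Fin 4 × Lab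

/-- The terminal letters. -/
inductive Ltr
  | vl (τ : Fin 4)
  | op (a : Ent)
  | cl (a : Ent)
  | dd
  | ee
  deriving DecidableEq, Fintype, Repr

/-- One letter acting on the stack. -/
def stp : Ltr → List Ent → Option (List Ent)
  | Ltr.vl _, σ => some σ
  | Ltr.op a, σ => some (a :: σ)
  | Ltr.cl _, [] => none
  | Ltr.cl a, b :: σ => if a = b then some σ else none
  | Ltr.dd, σ => some σ
  | Ltr.ee, σ => some σ

/-- Reading a word from a stack. -/
def run : List Ltr → List Ent → Option (List Ent)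
  | [], σ => some σ
  | x :: w, σ => (stp x σ).bind (run w)

/-- The list of the types of the v-letters. -/
def vs (w : List Ltr) : List (Fin 4) :=
  w.filterMap (fun x => match x with
    | Ltr.vl τ => some τ
    | _ => none)

/-- The counter function F. -/
def F (v : List (Fin 4)) : ℕ :=
  v.foldl (fun x τ => if τ = 0 then 2 * x else if τ = 1 then 2 * x + 1 else x) 1

/-- Leaves. -/
def Leaf (x : Ltr) : Prop := x = Ltr.dd ∨ x = Ltr.ee

instance (x : Ltr) : Decidable (Leaf x) := by unfold Leaf; infer_instance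

/-- Is the letter an opening bracket. -/
def IsOp : Ltr → Bool
  | Ltr.op _ => true
  | _ => false

/-- Is the letter a closing bracket. -/
def IsCl : Ltr → Bool
  | Ltr.cl _ => true
  | _ => false

/-- The properties of the words of the language which are used. -/
structure Good (w : List Ltr) : Prop where
  bal : run w [] = some []
  leaf : ∀ (u : List Ltr) (a : Ltr) (u' : List Ltr), w = u ++ a :: u' → Leaf a →
    ∀ σ, run u [] = some σ → ((σ.map Prod.fst).reverse).Sublist (vs w)
  cnt : w.count Ltr.dd ≤ F (vs w)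

/-! ### The words -/

/-- number of blocks (roots) -/
def kk (s : ℕ) : ℕ := 2 * s + 1
/-- window length, also the length of the padding -/
def lam (s : ℕ) : ℕ := 2 * (s + 2 + kk s)
/-- depth -/
def DD (t : ℕ) : ℕ := t + 1
/-- length of the last part of a segment -/
def ll (s t : ℕ) : ℕ := lam s + kk s + DD t + 3
/-- length of a segment -/
def gg (s t : ℕ) : ℕ := lam s + t + ll s t
/-- depth of the leaves, length of the v-part -/
def nn (s t : ℕ) : ℕ := gg s t * (DD t + 1)

/-- The type of the brackets at depth j. -/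
def ty (s t : ℕ) (b : ℕ → Bool) (j : ℕ) : Fin 4 :=
  if lam s ≤ j % gg s t ∧ j % gg s t < lam s + t then
    (if j < gg s t then (if b (j % gg s t - lam s) then 1 else 0)
      else (if b (j % gg s t - lam s) then 3 else 2))
  else 2

/-- Nodes: (block, path), the deepest bit first. -/
abbrev Node := ℕ × List Bool

/-- The period of a node. -/
def per (s : ℕ) (ν : Node) : ℕ :=
  if ν.2 = [] then s + 2 + ν.1 else ν.2.length % (s + 1) + 1

/-- The address code of a node. -/
def enc (ν : Node) (x : ℕ) : Fin 4 :=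
  if x < ν.1 then 1 else if x = ν.1 then 0 else
    match ν.2[x - ν.1 - 1]? with
    | some true => 1
    | some false => 0
    | none => 2

/-- The label of the q-th bracket of the segment of a node. -/
def lab (s t : ℕ) (ν : Node) (q : ℕ) : Lab :=
  (decide (q % per s ν = 0),
    if q + 1 = gg s t then 3 else if lam s + t ≤ q then enc ν (q - (lam s + t)) else 0)

/-- The q-th bracket of the segment of a node. -/
def ent (s t : ℕ) (b : ℕ → Bool) (ν : Node) (q : ℕ) : Ent :=
  (ty s t b (ν.2.length * gg s t + q), lab s t ν q)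

/-- The segment of a node, outermost bracket first. -/
def seg (s t : ℕ) (b : ℕ → Bool) (ν : Node) : List Ent :=
  (List.range (gg s t)).map (ent s t b ν)

/-- The word of the subtree of height h below the node (i, p), with budget m of leaves dd. -/
def Tw (s t : ℕ) (b : ℕ → Bool) (i : ℕ) : ℕ → List Bool → ℕ → List Ltr
  | 0, p, m => (seg s t b (i, p)).map Ltr.op ++
      ([if m = 0 then Ltr.ee else Ltr.dd] ++ (seg s t b (i, p)).reverse.map Ltr.cl)
  | h + 1, p, m => (seg s t b (i, p)).map Ltr.op ++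
      ((Tw s t b i h (false :: p) (min m (2 ^ h)) ++ Tw s t b i h (true :: p) (m - 2 ^ h)) ++
        (seg s t b (i, p)).reverse.map Ltr.cl)

/-- The v-part. -/
def vpart (s t : ℕ) (b : ℕ → Bool) : List (Fin 4) := (List.range (nn s t)).map (ty s t b)

/-- The types of the bits. -/
def bits (t : ℕ) (b : ℕ → Bool) : List (Fin 4) := (List.range t).map (fun j => if b j then 1 else 0)

/-- F(b) = 2^t + val b. -/
def Fb (t : ℕ) (b : ℕ → Bool) : ℕ := F (bits t b)

/-- The bracket part. -/
def Bpart (s t : ℕ) (b : ℕ → Bool) : List Ltr :=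
  (List.range (kk s)).flatMap (fun i => Tw s t b i (DD t) [] (if i = 0 then Fb t b else 0))

/-- The word W(s,t,b). -/
def WW (s t : ℕ) (b : ℕ → Bool) : List Ltr := (vpart s t b).map Ltr.vl ++ Bpart s t b

/-- length of Tw at height h -/
def tl (s t : ℕ) : ℕ → ℕ
  | 0 => 2 * gg s t + 1
  | h + 1 => 2 * gg s t + 2 * tl s t h

/-- first position of the node (i, p) -/
def lo (s t : ℕ) (i : ℕ) : List Bool → ℕ
  | [] => nn s t + i * tl s t (DD t)
  | c :: p => lo s t i p + gg s t + (if c then tl s t (DD t - (p.length + 1)) else 0)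

/-- end position of the node (i, p) -/
def hi (s t : ℕ) (i : ℕ) (p : List Bool) : ℕ := lo s t i p + tl s t (DD t - p.length)

/-- (i, p) is a node -/
def IsNode (s t : ℕ) (i : ℕ) (p : List Bool) : Prop := i < kk s ∧ p.length ≤ DD t

/-- slices -/
def sl (w : List Ltr) (a b : ℕ) : List Ltr := (w.take b).drop a

/-- E-mark -/
def isE (x : Ent) : Bool := decide (x.2.2 = 3)

/-- The key of a stack. -/
def key (s t : ℕ) (σ : List Ent) : List Lab :=
  ((σ.dropWhile (fun x => !isE x)).take (ll s t)).map Prod.snd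

/-- The code of a node: the labels of the last part of its segment, innermost first. -/
def code (s t : ℕ) (ν : Node) : List Lab :=
  ((List.range' (lam s + t) (ll s t)).map (lab s t ν)).reverse

/-! ### Cuts -/

/-- Entries of a cut: (symbol, yield). -/
abbrev Sg (N : Type) := Symbol Ltr N × List Ltr

/-- total yield -/
def yl {N : Type} (K : List (Sg N)) : List Ltr := K.flatMap Prod.snd

/-- cut positions -/
def ps {N : Type} (K : List (Sg N)) (j : ℕ) : ℕ := (yl (K.take j)).length

/-- Abstract properties of the cuts of the derivations of a propagating regular-controlled grammar. -/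
structure CutSys (N Q : Type) (L : List Ltr → Prop) (rho : ℕ) where
  S : N
  Cut : Q → List (Sg N) → Prop
  ne : ∀ q K, Cut q K → ∀ x ∈ K, x.2 ≠ []
  term : ∀ q K, Cut q K → ∀ (a : Ltr) (y : List Ltr), (Symbol.terminal a, y) ∈ K → y = [a]
  hyb : ∀ q K K' B, Cut q K → Cut q K' → B.Perm K' → B.map Prod.fst = K.map Prod.fst → L (yl B)
  first : ∀ w, L w → ∀ p : List (Sg N) → Prop, ¬ p [(Symbol.nonterminal S, w)] →
    (∀ K : List (Sg N), (∀ x ∈ K, x.2.length = 1) → yl K = w → p K) →
    ∃ q₁ K₁ q K, Cut q₁ K₁ ∧ Cut q K ∧ yl K₁ = w ∧ yl K = w ∧ ¬ p K₁ ∧ p K ∧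
      K.length ≤ K₁.length + rho

/-- The middle part of the left segment of (i,p) meets a long entry. -/
def Und (s t : ℕ) {N : Type} (K : List (Sg N)) (i : ℕ) (p : List Bool) : Prop :=
  ∃ j < K.length, ps K j + lam s ≤ ps K (j + 1) ∧ ps K j < lo s t i p + lam s + t ∧
    lo s t i p + lam s < ps K (j + 1)

/-- There is a cut position strictly inside the middle region of (i,p). -/
def Open (s t : ℕ) {N : Type} (K : List (Sg N)) (i : ℕ) (p : List Bool) : Prop :=
  ∃ j ≤ K.length, lo s t i p + gg s t < ps K j ∧ ps K j + gg s t < hi s t i p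

/-- The j-th entry is an S-segment for (i,p). -/
def SAt (s t : ℕ) {N : Type} (K : List (Sg N)) (j : ℕ) (i : ℕ) (p : List Bool) : Prop :=
  ps K j ≤ lo s t i p + (lam s + t) ∧ lo s t i p + gg s t ≤ ps K (j + 1) ∧
    ps K (j + 1) + gg s t ≤ hi s t i p

/-- The j-th entry is an E-segment for (i,p). -/
def EAt (s t : ℕ) {N : Type} (K : List (Sg N)) (j : ℕ) (i : ℕ) (p : List Bool) : Prop :=
  ps K j + lam s ≤ ps K (j + 1) ∧ lo s t i p + lam s ≤ ps K (j + 1) ∧
    ps K (j + 1) ≤ lo s t i p + gg s t

/-- bound for the number of open nodes -/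
def Ob (s t : ℕ) : ℕ := (s * (DD t + 1) + kk s) * 2 ^ (s + 1)

/-- bound for the number of entries -/
def Mb (s t : ℕ) : ℕ :=
  (nn s t + 1) + kk s * (2 * (gg s t + 1)) + Ob s t * (4 * (gg s t + 1))

/-- marks around a determined node of level e -/
structure Mk1 (s t : ℕ) (b : ℕ → Bool) {N : Type} (K : List (Sg N)) (e off m1 m2 m3 : ℕ) : Prop where
  he : e ≤ DD t
  hoff : off ≤ lam s
  h12 : m1 ≤ m2
  h23 : m2 ≤ m3
  h3 : m3 < K.length
  hht : (yl (K.take m1)).countP IsOp = (yl (K.take m1)).countP IsCl + (e * gg s t + off)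
  hshort : ∀ x ∈ (K.take m2).drop m1, x.2.length < lam s
  hops : ∃ z : List Ent, yl ((K.take m2).drop m1) = z.map Ltr.op ∧ lam s + t ≤ off + z.length ∧
    z.map Prod.fst = (List.range' (e * gg s t + off) z.length).map (ty s t b)
  hmid : ∃ z : List Ent, yl ((K.take m3).drop m2) = z.map Ltr.op
  hleaf : ∃ (z : List Ent) (a : Ltr) (c : List Ltr),
    yl ((K.take (m3 + 1)).drop m3) = z.map Ltr.op ++ a :: c ∧ Leaf a ∧
    (yl (K.take m3)).countP IsOp + z.length = (yl (K.take m3)).countP IsCl + nn s t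

/-- mark at a block whose middle region is not cut -/
structure Mk2 (s t : ℕ) (b : ℕ → Bool) {N : Type} (K : List (Sg N)) (mC : ℕ) : Prop where
  hC : mC < K.length
  hleaf : ∃ (u : List Ltr) (z : List Ent) (a : Ltr) (c : List Ltr),
    yl ((K.take (mC + 1)).drop mC) = u ++ (z.map Ltr.op ++ a :: c) ∧ Leaf a ∧
    z.map Prod.fst = (List.range' (gg s t) (nn s t - gg s t)).map (ty s t b) ∧
    (yl (K.take mC) ++ u).countP IsOp = (yl (K.take mC) ++ u).countP IsCl + gg s t

/-- the kind of an entry -/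
def kd (s : ℕ) {N : Type} (x : Sg N) : Symbol Ltr N × Option {y : List Ltr // y.length < lam s} :=
  (x.1, if h : x.2.length < lam s then some ⟨x.2, h⟩ else none)

/-! ### Grammars -/

/-- Derivations with control word. -/
inductive Der {T N Λ : Type} (lab : Λ → ContextFreeRule T N) :
    List Λ → List (Symbol T N) → List (Symbol T N) → Prop
  | nil (u : List (Symbol T N)) : Der lab [] u u
  | cons {r : Λ} {rs : List Λ} {u v w : List (Symbol T N)} :
      (lab r).Rewrites u v → Der lab rs v w → Der lab (r :: rs) u w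

/-- The generated language. -/
def LG {T N Λ σ : Type} (S : N) (lab : Λ → ContextFreeRule T N) (M : DFA Λ σ) (w : List T) : Prop :=
  ∃ rs : List Λ, M.eval rs ∈ M.accept ∧ Der lab rs [Symbol.nonterminal S] (w.map Symbol.terminal)

/-- Derivations of lists of (symbol, yield) with a common control word. -/
inductive Par {T N Λ : Type} (lab : Λ → ContextFreeRule T N) :
    List Λ → List (Symbol T N × List T) → Prop
  | nil (w : List T) : Par lab [] (w.map fun a => (Symbol.terminal a, [a]))
  | cons (r : Λ) (rs : List Λ) (K₁ Ks K₂ : List (Symbol T N × List T)) :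
      Ks.map Prod.fst = (lab r).output → Par lab rs (K₁ ++ Ks ++ K₂) →
      Par lab (r :: rs)
        (K₁ ++ [(Symbol.nonterminal (lab r).input, Ks.flatMap Prod.snd)] ++ K₂)

/-- nonterminals of the erasing grammar -/
inductive NT
  | S | P | X | X' | Z | c | c'
  deriving DecidableEq

instance : Fintype NT :=
  ⟨{NT.S, NT.P, NT.X, NT.X', NT.Z, NT.c, NT.c'}, by intro x; cases x <;> simp⟩

/-- rule labels of the erasing grammar -/
inductive Rl
  | r0 | rX | rv (τ : Fin 4) | inc | mv (a : Ent) | br (a : Ent) | dbl | go | retX | retc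
  | fd | fe | fc | fP | fZ
  deriving DecidableEq, Fintype

/-- states of the control automaton -/
inductive St
  | qS | qR | qN | qM (τ : Fin 4) | qF | qO | qD
  deriving DecidableEq, Fintype

/-- the rules -/
def rul : Rl → ContextFreeRule Ltr NT
  | Rl.r0 => ⟨NT.S, [.nonterminal NT.P, .nonterminal NT.Z, .nonterminal NT.c]⟩
  | Rl.rX => ⟨NT.P, [.nonterminal NT.P, .nonterminal NT.X]⟩
  | Rl.rv τ => ⟨NT.P, [.terminal (Ltr.vl τ), .nonterminal NT.P]⟩
  | Rl.inc => ⟨NT.Z, [.nonterminal NT.Z, .nonterminal NT.c']⟩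
  | Rl.mv a => ⟨NT.X, [.terminal (Ltr.op a), .nonterminal NT.X', .terminal (Ltr.cl a)]⟩
  | Rl.br a => ⟨NT.X, [.terminal (Ltr.op a), .nonterminal NT.X', .nonterminal NT.X',
      .terminal (Ltr.cl a)]⟩
  | Rl.dbl => ⟨NT.c, [.nonterminal NT.c', .nonterminal NT.c']⟩
  | Rl.go => ⟨NT.Z, [.nonterminal NT.Z]⟩
  | Rl.retX => ⟨NT.X', [.nonterminal NT.X]⟩
  | Rl.retc => ⟨NT.c', [.nonterminal NT.c]⟩
  | Rl.fd => ⟨NT.X, [.terminal Ltr.dd]⟩
  | Rl.fe => ⟨NT.X, [.terminal Ltr.ee]⟩
  | Rl.fc => ⟨NT.c, []⟩
  | Rl.fP => ⟨NT.P, []⟩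
  | Rl.fZ => ⟨NT.Z, []⟩

/-- the control automaton -/
def stepH : St → Rl → St
  | St.qS, Rl.r0 => St.qR
  | St.qR, Rl.rX => St.qR
  | St.qR, Rl.retX => St.qR
  | St.qR, Rl.retc => St.qR
  | St.qR, Rl.rv τ => if τ = 1 then St.qN else St.qM τ
  | St.qR, Rl.fZ => St.qF
  | St.qN, Rl.inc => St.qM 1
  | St.qM τ, Rl.mv a => if a.1 = τ then St.qM τ else St.qD
  | St.qM τ, Rl.br a => if a.1 = τ then St.qM τ else St.qD
  | St.qM τ, Rl.dbl => if τ < 2 then St.qM τ else St.qD
  | St.qM _, Rl.go => St.qR
  | St.qF, Rl.fe => St.qF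
  | St.qF, Rl.fc => St.qF
  | St.qF, Rl.fP => St.qF
  | St.qF, Rl.fd => St.qO
  | St.qO, Rl.fc => St.qF
  | _, _ => St.qD

/-- the control automaton -/
def MH : DFA Rl St := ⟨stepH, St.qS, {St.qF}⟩

/-- the language of the erasing grammar -/
def LH (w : List Ltr) : Prop := LG NT.S rul MH w

/-- trees with brackets -/
inductive BT
  | leaf (d : Bool)
  | one (a : Ent) (t : BT)
  | two (a : Ent) (t₁ t₂ : BT)

/-- the word of a tree -/
def BT.word : BT → List Ltr
  | BT.leaf d => [if d then Ltr.dd else Ltr.ee]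
  | BT.one a t => Ltr.op a :: (t.word ++ [Ltr.cl a])
  | BT.two a t₁ t₂ => Ltr.op a :: ((t₁.word ++ t₂.word) ++ [Ltr.cl a])

/-- number of leaves dd -/
def BT.dc : BT → ℕ
  | BT.leaf d => if d then 1 else 0
  | BT.one _ t => t.dc
  | BT.two _ t₁ t₂ => t₁.dc + t₂.dc

/-- all leaves have the list v of types -/
def BT.UD : List (Fin 4) → BT → Prop
  | [], BT.leaf _ => True
  | τ :: v, BT.one a t => a.1 = τ ∧ BT.UD v t
  | τ :: v, BT.two a t₁ t₂ => a.1 = τ ∧ BT.UD v t₁ ∧ BT.UD v t₂
  | _, _ => False

end Pool.Agent.H51.ERA
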